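import Pool.Agent.H97.PR.Fin
import Pool.Agent.H97.RK.All
import Pool.Agent.H27.RKS.NSA
import Pool.Agent.H29.PRY.STP
import Pool.Agent.H33.PRY.SPL
import Pool.Agent.H34.PRY.LEF
import Pool.Agent.H36.PRY.ADS
import Pool.Agent.H38.PRY.ADV
import Pool.Agent.H39.PRY.CMB
import Pool.Agent.H4.PRY.FEX
import Pool.Agent.H42.PRY.BLK
import Pool.Agent.H42.PRY.ITR
import Pool.Agent.H46.PRY.CST
import Pool.Agent.H51.PRY.RND
import Pool.Agent.H75.PRY.GDA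
import Pool.Agent.H85.PRY.RKC
import Pool.Agent.H86.PRY.CMA
import Pool.Agent.H98.PRY.TRE
import Pool.Agent.H11.PR.RKB
import Pool.Agent.H41.PR.MNM
import Pool.Agent.H58.PR.CLS
import Pool.Agent.H58.PR.GEX
import Pool.Agent.H58.PR.GMM
import Pool.Agent.H78.PR.CVR
import Pool.Agent.H94.PR.DPT
import Pool.Agent.H13.PR.TRL
import Pool.Agent.H16.PRY.JAN

/-!
Resolution over parities at the scale of SETH (MP_c62aed_lc): the theorem.
-/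

set_option autoImplicit false

namespace Pool.Agent.H97.PR

open Finset

theorem aRKB : T_RKB := Pool.Agent.H11.PR.pf_RKB
theorem aRKC : T_RKC := Pool.Agent.H85.PRY.pf_RKC aRKB
theorem aCLS : T_CLS := Pool.Agent.H58.PR.pf_CLS aRKB
theorem aSPL : T_SPL := Pool.Agent.H33.PRY.pf_SPL
theorem aCST : T_CST := Pool.Agent.H46.PRY.pf_CST aRKC
theorem aGMM : T_GMM := Pool.Agent.H58.PR.pf_GMM aRKB aRKC
theorem aGDA : T_GDA := Pool.Agent.H75.PRY.pf_GDA Pool.Agent.H16.PRY.pf_JAN aGMM aRKC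
theorem aGEX : T_GEX := Pool.Agent.H58.PR.pf_GEX aGDA aRKC
theorem aADS : T_ADS := Pool.Agent.H36.PRY.pf_ADS
theorem aLEF : T_LEF := Pool.Agent.H34.PRY.pf_LEF aRKC aADS
theorem aSTP : T_STP := Pool.Agent.H29.PRY.pf_STP aRKB aRKC aCLS aSPL aADS
theorem aMNM : T_MNM := pf_MNM aRKB aRKC
theorem aDPT : T_DPT := Pool.Agent.H94.PR.pf_DPT aLEF aSTP
theorem aCVR : T_CVR := Pool.Agent.H78.PR.pf_CVR aRKC aCST aLEF aSTP
theorem aRND : T_RND := Pool.Agent.H51.PRY.pf_RND aCVR aMNM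
theorem aITR : T_ITR := Pool.Agent.H42.PRY.pf_ITR aDPT aRND
theorem aTRE : T_TRE := Pool.Agent.H98.PRY.pf_TRE aLEF aSTP
theorem aWID : T_WID := pf_WID aLEF aSTP aMNM
theorem aADV : T_ADV :=
  Pool.Agent.H38.PRY.pf_ADV RK.ask (Pool.Agent.H33.RKS.pf_FGT Pool.Agent.H42.RKS.pf_FIX
    Pool.Agent.H42.RKS.pf_CLO) (Pool.Agent.H37.RKS.pf_TAU RK.ask)
theorem aFEX : T_FEX :=
  Pool.Agent.H4.PRY.pf_FEX aADV (Pool.Agent.H11.RKS.pf_PX1 Pool.Agent.H54.RKS.pf_PBN)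
    (Pool.Agent.H66.RKS.pf_PX2 Pool.Agent.H54.RKS.pf_PBN) Pool.Agent.H34.RKS.pf_PSA
    Pool.Agent.H78.RKS.pf_NX1 Pool.Agent.H27.RKS.pf_NX2 Pool.Agent.H27.RKS.pf_NSA
    (Pool.Agent.H20.RKS.pf_PRM Pool.Agent.H45.RKS.pf_BLB)
theorem aBLK : T_BLK := Pool.Agent.H42.PRY.pf_BLK
theorem aCMA : T_CMA := Pool.Agent.H86.PRY.pf_CMA
theorem aCMB : T_CMB := Pool.Agent.H39.PRY.pf_CMB
theorem aTRL : T_TRL := Pool.Agent.H13.PR.pf_TRL aCMB

/-- resolution over parities at the scale of SETH -/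
theorem main : Main := pf_FIN aRKC aGEX aITR aTRE aWID aFEX aBLK aCMA aCMB aTRL

end Pool.Agent.H97.PR
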