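import Pool.Agent.H97.PR.Targets

/-!
Resolution over parities at the scale of SETH (MP_c62aed_lc): the number of the falsifying
assignments of a line.
-/

set_option autoImplicit false

namespace Pool.Agent.H97.PR

open Finset

theorem zm2 (a : ZMod 2) : a = 0 ∨ a = 1 := by
  fin_cases a
  · exact Or.inl rfl
  · exact Or.inr rfl

theorem sum_tz {n : ℕ} (I : Finset (Fin n)) (x : Fin n → Bool) :
    ∑ i ∈ I, tz x i = ((I.filter fun i => x i = true).card : ZMod 2) := by
  unfold tz
  rw [Finset.sum_ite, Finset.sum_const_zero, add_zero, Finset.sum_const, nsmul_eq_mul, mul_one]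

theorem holds_iff {n : ℕ} (e : Finset (Fin n) × Bool) (x : Fin n → Bool) :
    Holds e x ↔ ∑ i ∈ e.1, tz x i = if e.2 = true then 1 else 0 := by
  rw [sum_tz]
  unfold Holds
  rcases Nat.even_or_odd (e.1.filter fun i => x i = true).card with h | h
  · have h1 : ((e.1.filter fun i => x i = true).card : ZMod 2) = 0 := by
      rw [ZMod.natCast_eq_zero_iff_even]; exact h
    rw [h1]
    have h2 : ¬ Odd (e.1.filter fun i => x i = true).card := Nat.not_odd_iff_even.2 h
    cases e.2 <;> simp [h2]
  · have h1 : ((e.1.filter fun i => x i = true).card : ZMod 2) = 1 := by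
      rw [ZMod.natCast_eq_one_iff_odd]; exact h
    rw [h1]
    cases e.2 <;> simp [h]

theorem fails_iff {n : ℕ} (L : Line n) (x : Fin n → Bool) : Fails L x ↔ tz x ∈ fs L := by
  unfold Fails fs
  simp only [Set.mem_setOf_eq]
  exact forall₂_congr fun e _ => not_congr (holds_iff e x)

/-- assignments and points -/
def te (n : ℕ) : (Fin n → Bool) ≃ E n where
  toFun := tz
  invFun := fun y i => decide (y i = 1)
  left_inv := fun x => by
    funext i
    unfold tz
    cases h : x i <;> simp [h]
  right_inv := fun y => by
    funext i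
    unfold tz
    rcases zm2 (y i) with h | h <;> simp [h]

theorem card_fails {n : ℕ} (L : Line n) :
    Nat.card {x // Fails L x} = cnt fun y => y ∈ fs L := by
  classical
  unfold cnt
  rw [← Fintype.card_subtype, ← Nat.card_eq_fintype_card]
  exact Nat.card_congr ((te n).subtypeEquiv fun x => fails_iff L x)

end Pool.Agent.H97.PR
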