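import Pool.Agent.H97.PR.Stmt
import Pool.Agent.H97.RK.Targets

/-!
Resolution over parities at the scale of SETH (MP_c62aed_lc): auxiliary definitions.
-/

set_option autoImplicit false

namespace Pool.Agent.H97.PR

open Finset

/-- the points -/
abbrev E (n : ℕ) : Type := Fin n → ZMod 2

/-- the tables of the gadgets: one Boolean function for every block of variables -/
abbrev Gad {n N : ℕ} (blk : Fin n → Fin N) : Type :=
  (v : Fin N) → ({i : Fin n // blk i = v} → ZMod 2) → Bool

/-- the values of the gadgets -/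
def gv {n N : ℕ} {blk : Fin n → Fin N} (g : Gad blk) (x : E n) (v : Fin N) : Bool :=
  g v fun i => x i.1

/-- the points which vanish on the blocks of `J` -/
def zr {n N : ℕ} (blk : Fin n → Fin N) (J : Finset (Fin N)) : Submodule (ZMod 2) (E n) where
  carrier := {x | ∀ i, blk i ∈ J → x i = 0}
  zero_mem' := fun _ _ => rfl
  add_mem' := fun {a b} ha hb i hi => by
    show a i + b i = 0
    rw [ha i hi, hb i hi, add_zero]
  smul_mem' := fun c x hx i hi => by
    show c * x i = 0
    rw [hx i hi, mul_zero]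

/-- dimension -/
noncomputable def dm {n : ℕ} (V : Submodule (ZMod 2) (E n)) : ℕ := Module.finrank (ZMod 2) V

/-- the rank of `V` on the blocks of `J` -/
noncomputable def rk {n N : ℕ} (blk : Fin n → Fin N) (V : Submodule (ZMod 2) (E n))
    (J : Finset (Fin N)) : ℕ := dm V - dm (V ⊓ zr blk J)

/-- the coset `a + V` -/
def pc {n : ℕ} (a : E n) (V : Submodule (ZMod 2) (E n)) : Set (E n) := {x | x - a ∈ V}

open Classical in
/-- number of points with a property -/
noncomputable def cnt {n : ℕ} (p : E n → Prop) : ℕ := (univ.filter p).card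

/-- affine (or empty) sets -/
def IsAf {n : ℕ} (A : Set (E n)) : Prop := ∀ x ∈ A, ∀ y ∈ A, ∀ z ∈ A, x + y + z ∈ A

/-- the property of the gadgets: every pattern `z` on `J` occurs about as often as it should in
every affine space which has rank at least `γ |J'| - 1` on every nonempty set `J'` of blocks of
`J` -/
def Gd {n N : ℕ} (blk : Fin n → Fin N) (γ : ℕ) (g : Gad blk) : Prop :=
  ∀ (V : Submodule (ZMod 2) (E n)) (a : E n) (J : Finset (Fin N)) (z : Fin N → Bool),
    (∀ J' : Finset (Fin N), J' ⊆ J → J'.Nonempty → γ * J'.card ≤ rk blk V J' + 1) →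
    2 ^ dm V ≤ 2 ^ (J.card + 1) * cnt fun x => x - a ∈ V ∧ ∀ v ∈ J, gv g x v = z v

/-- an adversary for the formula `F` with `N` variables, up to `D` variables -/
structure Adv {N k m : ℕ} (F : RK.Fml N k m) (D : ℕ)
    (G : Finset (Fin N) → (Fin N → Bool) → Prop) : Prop where
  emp : ∀ y, G ∅ y
  cong : ∀ (A : Finset (Fin N)) (y y' : Fin N → Bool), (∀ u ∈ A, y' u = y u) → G A y → G A y'
  res : ∀ (A A₀ : Finset (Fin N)) (y : Fin N → Bool), A₀ ⊆ A → G A y → G A₀ y
  ext : ∀ (A : Finset (Fin N)) (v : Fin N) (y : Fin N → Bool), A.card < D → v ∉ A → G A y →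
    ∃ y' : Fin N → Bool, (∀ u ∈ A, y' u = y u) ∧ G (insert v A) y'
  ok : ∀ (A : Finset (Fin N)) (y : Fin N → Bool) (c : Fin m), G A y → (∀ i, (F c i).1 ∈ A) →
    ∃ i, y (F c i).1 = (F c i).2

/-- the hypotheses: blocks with at least `γ` and at most `B` variables, gadgets, an adversary -/
structure Env {n N k m : ℕ} (blk : Fin n → Fin N) (γ B D q σ : ℕ) (g : Gad blk)
    (F : RK.Fml N k m) (G : Finset (Fin N) → (Fin N → Bool) → Prop) : Prop where
  lo : ∀ v, γ ≤ (univ.filter fun i => blk i = v).card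
  hi : ∀ v, (univ.filter fun i => blk i = v).card ≤ B
  gd : Gd blk γ g
  adv : Adv F D G
  par : N + k * σ ≤ D + q

/-- the state: the coset `a + V`, the set `Cl` of the closed blocks -/
structure Sta {n N : ℕ} (blk : Fin n → Fin N) (γ : ℕ) (g : Gad blk)
    (G : Finset (Fin N) → (Fin N → Bool) → Prop) (a : E n) (V : Submodule (ZMod 2) (E n))
    (Cl : Finset (Fin N)) : Prop where
  zr : V ≤ zr blk Cl
  rk : ∀ J : Finset (Fin N), Disjoint J Cl → γ * J.card ≤ rk blk V J
  good : G Cl (gv g a)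

/-- leaves: at every point one of at most `σ` clauses of `F` is false -/
def Lf {n N k m : ℕ} {blk : Fin n → Fin N} (F : RK.Fml N k m) (g : Gad blk) (σ : ℕ)
    (A : Set (E n)) : Prop :=
  ∃ T : Finset (Fin m), T.card ≤ σ ∧ ∀ x ∈ A, ∃ c ∈ T, RK.Falsified (RK.cls F c) (gv g x)

/-- refutations, on the sets of the falsifying points -/
structure Dag {n : ℕ} (Leaf : Set (E n) → Prop) (S : ℕ) (A : ℕ → Set (E n)) (h : ℕ → ℕ) :
    Prop where
  aff : ∀ i, i < S → IsAf (A i)
  step : ∀ i, i < S → Leaf (A i) ∨ (∃ j, j < i ∧ h j ≤ h i ∧ A i ⊆ A j) ∨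
    ∃ j k, j < i ∧ k < i ∧ h j + 1 ≤ h i ∧ h k + 1 ≤ h i ∧ A i ⊆ A j ∪ A k

/-- tree-like refutations, on the sets of the falsifying points -/
inductive TreeA {n : ℕ} (Leaf : Set (E n) → Prop) : Set (E n) → ℕ → Prop
  | ax (A : Set (E n)) : Leaf A → TreeA Leaf A 1
  | weak (A A' : Set (E n)) (s : ℕ) : IsAf A' → TreeA Leaf A' s → A ⊆ A' → TreeA Leaf A (s + 1)
  | res (A A₁ A₂ : Set (E n)) (s₁ s₂ : ℕ) : IsAf A₁ → IsAf A₂ → TreeA Leaf A₁ s₁ →
      TreeA Leaf A₂ s₂ → A ⊆ A₁ ∪ A₂ → TreeA Leaf A (s₁ + s₂ + 1)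

/-- the point of an assignment -/
def tz {n : ℕ} (x : Fin n → Bool) : E n := fun i => if x i = true then 1 else 0

/-- the falsifying points of a line -/
def fs {n : ℕ} (L : Line n) : Set (E n) :=
  {x | ∀ e ∈ L, ∑ i ∈ e.1, x i ≠ if e.2 = true then 1 else 0}

/-- the clause which is false exactly at the assignments which agree with `x` on the blocks of
the clause `c` of `F` -/
def ccl {n N k m : ℕ} (blk : Fin n → Fin N) (F : RK.Fml N k m) (c : Fin m) (x : Fin n → Bool) :
    Finset (Fin n × Bool) :=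
  (univ.filter fun i => blk i ∈ RK.vs (RK.cls F c)).image fun i => (i, !(x i))

open Classical in
/-- the composed formula -/
noncomputable def cmp {n N k m : ℕ} {blk : Fin n → Fin N} (F : RK.Fml N k m) (g : Gad blk) :
    CNF n :=
  (univ.filter fun p : Fin m × (Fin n → Bool) =>
    RK.Falsified (RK.cls F p.1) (gv g (tz p.2))).image fun p => ccl blk F p.1 p.2

end Pool.Agent.H97.PR
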