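import Pool.Agent.H97.PR.Targets

/-!
Resolution over parities at the scale of SETH (MP_c62aed_lc): every refutation contains a line
which fails for few assignments.
-/

set_option autoImplicit false

namespace Pool.Agent.H97.PR

open Finset

/-- (WID) if all nodes are large, there are no states. -/
def T_WID : Prop :=
  ∀ (n N k m : ℕ) (blk : Fin n → Fin N) (γ B D q σ : ℕ) (g : Gad blk) (F : RK.Fml N k m)
    (G : Finset (Fin N) → (Fin N → Bool) → Prop), Env blk γ B D q σ g F G →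
    ∀ (S : ℕ) (A : ℕ → Set (E n)) (h : ℕ → ℕ), Dag (Lf F g σ) S A h →
    (∀ u, u < S → 2 ^ (γ * N + B * q) < cnt (fun x => x ∈ A u)) →
    ∀ (i : ℕ) (a : E n) (V : Submodule (ZMod 2) (E n)) (Cl : Finset (Fin N)), i < S →
    Sta blk γ g G a V Cl → pc a V ⊆ A i → False

theorem pf_WID (hLEF : T_LEF) (hSTP : T_STP) (hMNM : T_MNM) : T_WID := by
  intro n N k m blk γ B D q σ g F G hE S A h hD hbig i
  induction i using Nat.strong_induction_on with
  | _ i ih =>
    intro a V Cl hi hs hsub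
    obtain ⟨V₁, Cl₁, hs₁, hsub₁, hc⟩ := hMNM n N k m blk γ g F D G hE.adv a V Cl (A i)
      (hD.aff i hi) hs hsub
    have hpot : γ * N + B * q < dm V₁ + γ * Cl₁.card :=
      (Nat.pow_lt_pow_iff_right (by norm_num : 1 < 2)).1 (lt_of_lt_of_le (hbig i hi) hc)
    rcases hD.step i hi with hl | ⟨j, hj, -, hAj⟩ | ⟨j, l, hj, hl, -, -, hAj⟩
    · exact absurd (hLEF n N k m blk γ B D q σ g F G hE a V₁ Cl₁ (A i) hs₁ hsub₁ hl)
        (not_le.2 hpot)
    · exact ih j hj a V₁ Cl₁ (hj.trans hi) hs₁ (hsub₁.trans hAj)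
    · rcases hSTP n N k m blk γ B D q σ g F G hE a V₁ Cl₁ (A j) (A l) (hD.aff j (hj.trans hi))
        (hD.aff l (hl.trans hi)) hs₁ (hsub₁.trans hAj) hpot with h1 | h1 | h1
      · exact ih j hj a V₁ Cl₁ (hj.trans hi) hs₁ h1
      · exact ih l hl a V₁ Cl₁ (hl.trans hi) hs₁ h1
      · obtain ⟨V₂, Cl₂, R₁, R₂, -, -, hR, -, -, -, -, ⟨x, hx⟩, -, hst, -⟩ := h1
        exact ih j hj x V₂ Cl₂ (hj.trans hi) (hst x hx).1 ((hst x hx).2.trans hR)

end Pool.Agent.H97.PR
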