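import Pool.Agent.H97.PR.Crd
import Pool.Agent.H97.PR.Wid

/-!
Resolution over parities at the scale of SETH (MP_c62aed_lc): numbers and assembly.
-/

set_option autoImplicit false

namespace Pool.Agent.H97.PR

open Finset

/-- logarithms are small -/
theorem log_sq {n M : ℕ} (hn : 2 ^ (max 4 M) ≤ n) : M * Nat.log 2 n ≤ n ∧ 4 ≤ Nat.log 2 n := by
  have h0 : n ≠ 0 := by
    have : 0 < 2 ^ (max 4 M) := by positivity
    omega
  have h1 : max 4 M ≤ Nat.log 2 n := Nat.le_log_of_pow_le (by norm_num) hn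
  have h2 : 2 ^ Nat.log 2 n ≤ n := Nat.pow_log_le_self 2 h0
  have h3 : ∀ l : ℕ, 4 ≤ l → l * l ≤ 2 ^ l := by
    intro l hl
    induction l, hl using Nat.le_induction with
    | base => norm_num
    | succ l hl ih =>
      rw [pow_succ]
      nlinarith
  have h4 : 4 ≤ Nat.log 2 n := le_trans (le_max_left _ _) h1
  refine ⟨?_, h4⟩
  calc M * Nat.log 2 n ≤ Nat.log 2 n * Nat.log 2 n :=
        Nat.mul_le_mul_right _ (le_trans (le_max_right _ _) h1)
    _ ≤ 2 ^ Nat.log 2 n := h3 _ h4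
    _ ≤ n := h2

/-- the exponents -/
theorem expo {K : ℝ} (hK : 1 ≤ K) : 1 ≤ ⌊2 * K - 1⌋₊ ∧ (⌊2 * K - 1⌋₊ : ℝ) * (1 / (2 * K - 1)) ≤ 1 ∧
    (⌊2 * K - 1⌋₊ : ℝ) * (⌊2 * K - 1⌋₊ + 1) * (1 / (2 * K - 1)) ≤ 2 * (⌊2 * K - 1⌋₊ + 1 - K) := by
  have hu : 1 ≤ 2 * K - 1 := by linarith
  have h1 : (⌊2 * K - 1⌋₊ : ℝ) ≤ 2 * K - 1 := Nat.floor_le (by linarith)
  have h2 : 2 * K - 1 < ⌊2 * K - 1⌋₊ + 1 := Nat.lt_floor_add_one _
  refine ⟨Nat.le_floor (by exact_mod_cast hu), ?_, ?_⟩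
  · rw [mul_one_div, div_le_one (by linarith)]
    exact h1
  · rw [mul_one_div, div_le_iff₀ (by linarith)]
    set R : ℝ := (⌊2 * K - 1⌋₊ : ℝ)
    nlinarith [mul_nonneg (sub_nonneg.2 h1) (sub_nonneg.2 h2.le)]

/-- numbers: the dag-like case -/
theorem num_dag {ε κ K n θ M : ℝ} {R : ℕ} (hε : 0 < ε) (hn : 0 < n) (hR : 1 ≤ R)
    (hκ : (R : ℝ) * (R + 1) * κ ≤ 2 * (R + 1 - K)) (hθ : θ ≤ ε * n / 8)
    (hM : M ≤ (κ - 7 / 8 * ε) * n)
    (h : 2 * ((R : ℝ) + 1) * n ≤ 2 * (K * n) + 2 * ((R : ℝ) + 1) * θ + R * (R + 1) * M) :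
    False := by
  have hR' : (1 : ℝ) ≤ R := by exact_mod_cast hR
  have h1 : (R : ℝ) * (R + 1) * M ≤ (R : ℝ) * (R + 1) * ((κ - 7 / 8 * ε) * n) :=
    mul_le_mul_of_nonneg_left hM (by positivity)
  have h2 : (R : ℝ) * (R + 1) * κ * n ≤ 2 * (R + 1 - K) * n :=
    mul_le_mul_of_nonneg_right hκ hn.le
  have h3 : 2 * ((R : ℝ) + 1) * θ ≤ 2 * ((R : ℝ) + 1) * (ε * n / 8) :=
    mul_le_mul_of_nonneg_left hθ (by positivity)
  have h4 : 0 < ε * n := mul_pos hε hn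
  have h5 : 0 ≤ ((R : ℝ) + 1) * (ε * n) * (R - 1) :=
    mul_nonneg (by positivity) (by linarith)
  have h6 : 0 < ((R : ℝ) + 1) * (ε * n) := by positivity
  nlinarith

theorem num_a {N l T b ε n : ℝ} (hN : 0 ≤ N) (hl : 0 ≤ l) (hε : 0 ≤ ε) (hT : 416 ≤ T * ε)
    (hb : b = T * l) (hNb : N * b ≤ n) : N * l * 416 ≤ ε * n := by
  have h1 : N * l * 416 ≤ N * l * (T * ε) := mul_le_mul_of_nonneg_left hT (mul_nonneg hN hl)
  have h2 : N * l * (T * ε) = ε * (N * b) := by rw [hb]; ring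
  rw [h2] at h1
  exact h1.trans (mul_le_mul_of_nonneg_left hNb hε)

theorem num_b {N l γ ε n : ℝ} (hN : 0 ≤ N) (hγ : γ ≤ 13 * l) (h : N * l * 416 ≤ ε * n) :
    γ * N ≤ ε * n / 32 := by
  have h1 : γ * N ≤ 13 * l * N := mul_le_mul_of_nonneg_right hγ hN
  linarith

theorem num_c {N D b ε n T k l σ C q : ℝ} (hb0 : 0 ≤ b) (hε : 0 ≤ ε) (hl : 0 ≤ l) (hσ0 : 0 ≤ σ)
    (hb : b = T * l) (hNb : N * b ≤ n) (hD : N ≤ D + ε / 128 * N) (hC : 64 * T * k ≤ C * ε)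
    (hσ : C * l * σ ≤ n) (hq : q = (N - D) + k * σ) :
    2 * b * q ≤ ε * n / 64 + ε * n / 32 := by
  have h3 : 2 * b * (N - D) ≤ 2 * b * (ε / 128 * N) :=
    mul_le_mul_of_nonneg_left (by linarith) (by positivity)
  have h3' : ε / 64 * (N * b) ≤ ε / 64 * n := mul_le_mul_of_nonneg_left hNb (by positivity)
  have h5 : 64 * T * k * (l * σ) ≤ C * ε * (l * σ) :=
    mul_le_mul_of_nonneg_right hC (mul_nonneg hl hσ0)
  have h6 : ε * (C * l * σ) ≤ ε * n := mul_le_mul_of_nonneg_left hσ hε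
  have h7 : 2 * b * (k * σ) = (64 * T * k * (l * σ)) / 32 := by rw [hb]; ring
  have h8 : C * ε * (l * σ) = ε * (C * l * σ) := by ring
  have h9 : 2 * b * (ε / 128 * N) = ε / 64 * (N * b) := by ring
  rw [hq, mul_add, h7]
  rw [h9] at h3
  rw [h8] at h5
  linarith

theorem num_d {N l ε n κ γN L₁ : ℝ} (hN : 0 ≤ N) (hl : 1 ≤ l) (h : N * l * 416 ≤ ε * n)
    (hγ : γN ≤ ε * n / 32) (h1 : 1 ≤ ε * n / 16) (hL : L₁ < (κ - ε) * n + 1) :
    L₁ + 2 * N + γN ≤ (κ - 7 / 8 * ε) * n := by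
  have h2 : N * 1 ≤ N * l := mul_le_mul_of_nonneg_left hl hN
  have h3 : (κ - 7 / 8 * ε) * n = (κ - ε) * n + ε * n / 8 := by ring
  rw [h3]
  linarith

theorem num_e {R κ ε n M : ℝ} (hR : 0 ≤ R) (hε : 0 ≤ ε) (hn : 0 ≤ n) (hRκ : R * κ ≤ 1)
    (hM : M ≤ (κ - 7 / 8 * ε) * n) : R * M ≤ n := by
  have h2 : R * M ≤ R * ((κ - 7 / 8 * ε) * n) := mul_le_mul_of_nonneg_left hM hR
  have h3 : R * κ * n ≤ 1 * n := mul_le_mul_of_nonneg_right hRκ hn
  have h4 : 0 ≤ R * (ε * n) := by positivity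
  have h5 : R * ((κ - 7 / 8 * ε) * n) = R * κ * n - 7 / 8 * (R * (ε * n)) := by ring
  linarith

theorem num_f {ε ε₀ n θ : ℝ} (hε : ε ≤ ε₀) (hn : 0 ≤ n) (h0 : 0 ≤ ε) (hθ : θ ≤ ε * n / 8) :
    (1 - ε₀) * n ≤ n - θ ∧ θ ≤ ε₀ * n := by
  have h1 : ε * n ≤ ε₀ * n := mul_le_mul_of_nonneg_right hε hn
  have h2 : 0 ≤ ε * n := mul_nonneg h0 hn
  constructor <;> linarith

theorem pf_FIN (hRKC : T_RKC) (hGEX : T_GEX) (hITR : T_ITR) (hTRE : T_TRE) (hWID : T_WID)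
    (hFEX : T_FEX) (hBLK : T_BLK) (hCMA : T_CMA) (hCMB : T_CMB) (hTRL : T_TRL) : Main := by
  intro ε₀ hε₀
  set ε : ℝ := min ε₀ 1 with hεdef
  have hε : 0 < ε := lt_min hε₀ one_pos
  have hε1 : ε ≤ 1 := min_le_right _ _
  have hεε : ε ≤ ε₀ := min_le_left _ _
  obtain ⟨k, c, N₀, hF⟩ := hFEX (ε / 128) (by positivity) (by linarith)
  obtain ⟨T, hT⟩ := exists_nat_ge (416 / ε)
  obtain ⟨C₁, hC₁⟩ := exists_nat_ge (64 * T * k / ε)
  obtain ⟨C₂, hC₂⟩ := exists_nat_ge (16 / ε)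
  have hTr : (416 : ℝ) ≤ T := by
    have : (416 : ℝ) ≤ 416 / ε := by
      rw [le_div_iff₀ hε]
      linarith
    linarith
  have hT13 : 416 ≤ T := by exact_mod_cast hTr
  have hTε : 416 ≤ T * ε := by
    rw [div_le_iff₀ hε] at hT
    exact hT
  set M₀ : ℕ := (N₀ + 1) * T with hM₀
  refine ⟨max (max (max (2 + 2 * T * k) C₁) (max C₂ c)) (2 ^ (max 4 M₀)), fun n hn => ?_⟩
  set C : ℕ := max (max (max (2 + 2 * T * k) C₁) (max C₂ c)) (2 ^ (max 4 M₀)) with hC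
  have hC_a : 2 + 2 * T * k ≤ C := by simp [hC]
  have hC_b : C₁ ≤ C := by simp [hC]
  have hC_c : C₂ ≤ C := by simp [hC]
  have hC_d : c ≤ C := by simp [hC]
  have hC_e : 2 ^ (max 4 M₀) ≤ C := by simp [hC]
  obtain ⟨hMl, hl4⟩ := log_sq (le_trans hC_e hn)
  set l : ℕ := Nat.log 2 n with hl
  have hn16 : 16 ≤ n := by
    have : 2 ^ 4 ≤ 2 ^ (max 4 M₀) := Nat.pow_le_pow_right (by norm_num) (le_max_left _ _)
    omega
  have hn0 : n ≠ 0 := by omega
  have hnr : (0 : ℝ) < n := by positivity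
  have h2l : 2 ^ l ≤ n := Nat.pow_log_le_self 2 hn0
  have h2l' : n < 2 ^ (l + 1) := Nat.lt_pow_succ_log_self (by norm_num) n
  set b : ℕ := T * l with hb
  have hb1 : 1 ≤ b := Nat.mul_pos (by omega) (by omega)
  have hMb : (N₀ + 1) * b ≤ n := by
    have : (N₀ + 1) * b = M₀ * l := by rw [hb, hM₀]; ring
    rw [this]
    exact hMl
  have hbn : b ≤ n := by
    calc b = 1 * b := (one_mul _).symm
      _ ≤ (N₀ + 1) * b := Nat.mul_le_mul_right _ (by omega)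
      _ ≤ n := hMb
  set N : ℕ := n / b with hN
  have hBLK' : ∃ blk : Fin n → Fin N, ∀ v, b ≤ (univ.filter fun i => blk i = v).card ∧
      (univ.filter fun i => blk i = v).card ≤ 2 * b := hBLK n b hb1 hbn
  obtain ⟨blk, hblk⟩ := hBLK'
  have hNN : N₀ + 1 ≤ N := (Nat.le_div_iff_mul_le hb1).2 hMb
  have hNb : N * b ≤ n := Nat.div_mul_le_self n b
  have hNn : N ≤ n := Nat.div_le_self n b
  obtain ⟨m, hm, F, D, G, huns, hadv, hDN, hDr⟩ := hF N (by omega)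
  set γ : ℕ := 3 * l + 10 with hγ
  have hγT : γ ≤ b := by
    rw [hγ, hb]
    nlinarith
  obtain ⟨g, hg⟩ := hGEX n N blk γ (by omega) hNn (by
    have h1 : n ^ 3 ≤ (2 ^ (l + 1)) ^ 3 := Nat.pow_le_pow_left h2l'.le 3
    calc 128 * n ^ 3 ≤ 128 * (2 ^ (l + 1)) ^ 3 := Nat.mul_le_mul_left _ h1
      _ = 2 ^ γ := by
        rw [hγ, ← pow_mul, show (128 : ℕ) = 2 ^ 7 by norm_num, ← pow_add]
        congr 1
        ring)
  have hlo : ∀ v, γ ≤ (univ.filter fun i => blk i = v).card := fun v => hγT.trans (hblk v).1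
  have hhi : ∀ v, (univ.filter fun i => blk i = v).card ≤ 2 * b := fun v => (hblk v).2
  obtain ⟨hwid, hcard⟩ := hCMA n N k m blk g F (2 * b) hhi
  obtain ⟨-, hunsat⟩ := hCMB n N k m blk g F
  refine ⟨cmp F g, ?_, ?_, hunsat huns, ?_⟩
  · -- number of clauses
    have h1 : 2 ^ (2 * b * k) ≤ n ^ (2 * T * k) := by
      calc 2 ^ (2 * b * k) = (2 ^ l) ^ (2 * T * k) := by
            rw [← pow_mul]
            congr 1
            rw [hb]
            ring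
        _ ≤ n ^ (2 * T * k) := Nat.pow_le_pow_left h2l _
    have h2 : m ≤ n ^ 2 := by
      calc m ≤ c * N := hm
        _ ≤ n * n := Nat.mul_le_mul (hC_d.trans hn) hNn
        _ = n ^ 2 := by ring
    calc (cmp F g).card ≤ m * 2 ^ (2 * b * k) := hcard
      _ ≤ n ^ 2 * n ^ (2 * T * k) := Nat.mul_le_mul h2 h1
      _ = n ^ (2 + 2 * T * k) := by rw [pow_add]
      _ ≤ n ^ C := Nat.pow_le_pow_right (by omega) hC_a
  · -- width
    intro cc hcc
    calc cc.card ≤ 2 * b * k := hwid cc hcc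
      _ = (2 * T * k) * l := by rw [hb]; ring
      _ ≤ C * l := Nat.mul_le_mul_right _ (by omega)
  -- the lower bounds
  intro σ hσ
  obtain ⟨hA1, hA2, hA3, hA4, hA5⟩ := hTRL n N k m blk g F σ
  set q : ℕ := N - D + k * σ with hq
  have hEnv : Env blk γ (2 * b) D q σ g F G :=
    ⟨hlo, hhi, hg, hadv, by rw [hq]; omega⟩
  have hSta : Sta blk γ g G 0 ⊤ ∅ := by
    refine ⟨?_, ?_, hadv.emp _⟩
    · intro x _ i hi
      exact absurd hi (Finset.notMem_empty _)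
    · intro J _
      exact (hRKC n N blk ⊤ J).2.2.2.2 γ hlo
  have hdm : dm (⊤ : Submodule (ZMod 2) (E n)) = n := (hRKC n N blk ⊤ ∅).2.2.1
  -- real bounds
  have hlr : (0 : ℝ) < l := by
    have : 0 < l := by omega
    exact_mod_cast this
  have hNbr : (N : ℝ) * b ≤ n := by exact_mod_cast hNb
  have hbr : (b : ℝ) = T * l := by rw [hb]; push_cast; ring
  have hNl : (N : ℝ) * l * 416 ≤ ε * n :=
    num_a (Nat.cast_nonneg N) hlr.le hε.le hTε hbr hNbr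
  have hγr : (γ : ℝ) ≤ 13 * l := by
    have : γ ≤ 13 * l := by rw [hγ]; omega
    exact_mod_cast this
  have hγN : (γ : ℝ) * N ≤ ε * n / 32 := num_b (Nat.cast_nonneg N) hγr hNl
  have hC₁' : 64 * (T : ℝ) * k ≤ C * ε := by
    have h1 : 64 * (T : ℝ) * k ≤ C₁ * ε := by
      rw [div_le_iff₀ hε] at hC₁
      exact hC₁
    have h2 : (C₁ : ℝ) ≤ C := by exact_mod_cast hC_b
    exact h1.trans (mul_le_mul_of_nonneg_right h2 hε.le)
  have hσr : (C : ℝ) * l * σ ≤ n := by exact_mod_cast hσ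
  have hqr : (q : ℝ) = (N - D) + k * σ := by
    rw [hq]
    push_cast [Nat.cast_sub hDN]
    ring
  have hBq : 2 * (b : ℝ) * q ≤ ε * n / 64 + ε * n / 32 :=
    num_c (Nat.cast_nonneg b) hε.le hlr.le (Nat.cast_nonneg σ) hbr hNbr hDr hC₁' hσr hqr
  set θ : ℕ := γ * N + 2 * b * q with hθ
  have hθr : (θ : ℝ) ≤ ε * n / 8 := by
    rw [hθ]
    push_cast
    have : 0 < ε * n := mul_pos hε hnr
    linarith
  refine ⟨fun s hs => ?_, fun S r L h href => ?_⟩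
  · -- tree-like
    have h1 := hTRE n N k m blk γ (2 * b) D q σ g F G hEnv _ s (hA5 ∅ s hs) 0 ⊤ ∅ hSta
      (by rw [hA2]; exact Set.subset_univ _)
    rw [hdm, Finset.card_empty, mul_zero, add_zero, ← hθ] at h1
    have h2 : (2 : ℝ) ^ (n : ℝ) ≤ s * (2 : ℝ) ^ (θ : ℝ) := by
      rw [Real.rpow_natCast, Real.rpow_natCast]
      exact_mod_cast h1
    have h3 : (2 : ℝ) ^ ((n : ℝ) - θ) ≤ s := by
      rw [Real.rpow_sub (by norm_num), div_le_iff₀ (by positivity)]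
      exact h2
    refine le_trans (Real.rpow_le_rpow_of_exponent_le (by norm_num) ?_) h3
    exact (num_f hεε hnr.le hε.le hθr).1
  · -- dag-like
    have hdag := hA4 S r L h href
    have hS1 : (1 : ℝ) ≤ S := by
      have : 1 ≤ S := by
        have := href.lt
        omega
      exact_mod_cast this
    have hsub : pc (0 : E n) (⊤ : Submodule (ZMod 2) (E n)) ⊆ fs (L r) := by
      rw [href.empty, hA2]
      exact Set.subset_univ _
    have key : ∀ (κ K : ℝ) (R : ℕ), 1 ≤ R → (R : ℝ) * κ ≤ 1 →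
        (R : ℝ) * (R + 1) * κ ≤ 2 * (R + 1 - K) → (h r : ℝ) ≤ K * n →
        (2 : ℝ) ^ ((κ - ε₀) * n) ≤ S := by
      intro κ K R hR hRκ hκ hK
      by_contra hcon
      push Not at hcon
      have hmon : (2 : ℝ) ^ ((κ - ε₀) * n) ≤ (2 : ℝ) ^ ((κ - ε) * n) := by
        refine Real.rpow_le_rpow_of_exponent_le (by norm_num) ?_
        exact mul_le_mul_of_nonneg_right (by linarith) hnr.le
      have hlt : (S : ℝ) < (2 : ℝ) ^ ((κ - ε) * n) := lt_of_lt_of_le hcon hmon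
      have hpos : 0 < (κ - ε) * n := by
        by_contra h0
        push Not at h0
        have : (2 : ℝ) ^ ((κ - ε) * n) ≤ 1 := Real.rpow_le_one_of_one_le_of_nonpos (by norm_num) h0
        linarith
      set L₁ : ℕ := ⌈(κ - ε) * n⌉₊ with hL₁
      have hL₁a : (κ - ε) * n ≤ L₁ := Nat.le_ceil _
      have hL₁b : (L₁ : ℝ) < (κ - ε) * n + 1 := Nat.ceil_lt_add_one hpos.le
      have hSL : S * 4 ^ N < 2 ^ (L₁ + 2 * N) := by
        have h1 : (S : ℝ) < 2 ^ L₁ := by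
          calc (S : ℝ) < (2 : ℝ) ^ ((κ - ε) * n) := hlt
            _ ≤ (2 : ℝ) ^ (L₁ : ℝ) := Real.rpow_le_rpow_of_exponent_le (by norm_num) hL₁a
            _ = 2 ^ L₁ := Real.rpow_natCast _ _
        have h2 : S < 2 ^ L₁ := by exact_mod_cast h1
        have h3 : (4 : ℕ) ^ N = 2 ^ (2 * N) := by rw [pow_mul]; norm_num
        rw [pow_add, h3]
        exact Nat.mul_lt_mul_of_pos_right h2 (by positivity)
      have hM : ((L₁ + 2 * N + γ * N : ℕ) : ℝ) ≤ (κ - 7 / 8 * ε) * n := by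
        push_cast
        have h1 : (1 : ℝ) ≤ l := by
          have : 1 ≤ l := by omega
          exact_mod_cast this
        have h2 : (1 : ℝ) ≤ ε * n / 16 := by
          have h3 : (C₂ : ℝ) ≤ n := by exact_mod_cast (hC_c.trans hn)
          have h4 : 16 ≤ C₂ * ε := by
            rw [div_le_iff₀ hε] at hC₂
            exact hC₂
          have h5 : (C₂ : ℝ) * ε ≤ n * ε := mul_le_mul_of_nonneg_right h3 hε.le
          linarith
        exact num_d (Nat.cast_nonneg N) h1 hNl hγN h2 hL₁b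
      have hRM : R * (L₁ + 2 * N + γ * N) ≤ n := by
        have h1 : (R : ℝ) * ((L₁ + 2 * N + γ * N : ℕ) : ℝ) ≤ n :=
          num_e (Nat.cast_nonneg R) hε.le hnr.le hRκ hM
        exact_mod_cast h1
      have h1 := hITR n N k m blk γ (2 * b) D q σ g F G hEnv S _ h hdag (L₁ + 2 * N) hSL R r 0 ⊤ ∅
        href.lt hSta hsub (by rw [hdm]; exact hRM)
      rw [hdm, ← hθ] at h1
      have h2 : 2 * ((R : ℝ) + 1) * n ≤
          2 * h r + 2 * ((R : ℝ) + 1) * θ + R * (R + 1) * ((L₁ + 2 * N + γ * N : ℕ) : ℝ) := by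
        exact_mod_cast h1
      exact num_dag hε hnr hR hκ hθr hM (by linarith)
    refine ⟨?_, fun ρ hρ hd => ?_, fun K hK hd => ?_⟩
    · -- a line which fails for few assignments
      by_contra hcon
      push Not at hcon
      refine hWID n N k m blk γ (2 * b) D q σ g F G hEnv S _ h hdag (fun u hu => ?_) r 0 ⊤ ∅
        href.lt hSta hsub
      have h1 := hcon u hu
      rw [card_fails] at h1
      have h2 : (2 : ℝ) ^ θ ≤ (2 : ℝ) ^ (ε₀ * n) := by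
        rw [← Real.rpow_natCast]
        exact Real.rpow_le_rpow_of_exponent_le (by norm_num) (num_f hεε hnr.le hε.le hθr).2
      rw [← hθ]
      exact_mod_cast lt_of_le_of_lt h2 h1
    · refine key (1 - ρ) (1 + ρ) 1 le_rfl ?_ ?_ hd
      · push_cast
        linarith
      · push_cast
        linarith
    · obtain ⟨e1, e2, e3⟩ := expo hK
      exact key _ K _ e1 e2 e3 hd

end Pool.Agent.H97.PR
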