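import Mathlib

/-!
Resolution over parities at the scale of SETH (MP_c62aed_lc): the definitions used by the
statement.
-/

set_option autoImplicit false

namespace Pool.Agent.H97.PR

open Finset

/-- A CNF formula with the variables `x_i`, `i : Fin n`: a finite set of clauses, each clause is a
finite set of literals. The literal `(i, s)` is true when the variable `x_i` has the value `s`. -/
abbrev CNF (n : ℕ) : Type := Finset (Finset (Fin n × Bool))

/-- All literals of the clause `C` are false under `x`. -/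
def Falsified {n : ℕ} (C : Finset (Fin n × Bool)) (x : Fin n → Bool) : Prop :=
  ∀ l ∈ C, x l.1 ≠ l.2

/-- A line of resolution over parities, `Res(⊕)`: the disjunction of a finite set of linear
equations modulo 2. The equation `(I, b)` is `∑_{i ∈ I} x_i = b`. -/
abbrev Line (n : ℕ) : Type := Finset (Finset (Fin n) × Bool)

/-- The assignment `x` satisfies the equation `(I, b)`: the number of the `i ∈ I` with `x_i = 1`
is odd if and only if `b = 1`. -/
def Holds {n : ℕ} (e : Finset (Fin n) × Bool) (x : Fin n → Bool) : Prop :=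
  Odd (e.1.filter fun i => x i = true).card ↔ e.2 = true

/-- All equations of the line `L` are false under `x`. -/
def Fails {n : ℕ} (L : Line n) (x : Fin n → Bool) : Prop := ∀ e ∈ L, ¬ Holds e x

/-- The line `L` follows from at most `q` clauses of `F`. -/
def Axm {n : ℕ} (F : CNF n) (q : ℕ) (L : Line n) : Prop :=
  ∃ G : CNF n, G ⊆ F ∧ G.card ≤ q ∧ ∀ x, Fails L x → ∃ C ∈ G, Falsified C x

/-- The lines `L 0, .., L (S - 1)` form a refutation of `F`, with axioms which follow from at most
`q` clauses: every line follows from at most `q` clauses of `F`, or from one earlier line, or from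
two earlier lines; the line `L r` is the empty disjunction. The number `h i` bounds the number of
the inferences with two premises on every path which leads from the line `i` to an axiom. -/
structure Refutes {n : ℕ} (F : CNF n) (q S r : ℕ) (L : ℕ → Line n) (h : ℕ → ℕ) : Prop where
  lt : r < S
  empty : L r = ∅
  step : ∀ i, i < S → Axm F q (L i) ∨
    (∃ j, j < i ∧ h j ≤ h i ∧ ∀ x, Fails (L i) x → Fails (L j) x) ∨
    ∃ j k, j < i ∧ k < i ∧ h j + 1 ≤ h i ∧ h k + 1 ≤ h i ∧
      ∀ x, Fails (L i) x → Fails (L j) x ∨ Fails (L k) x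

/-- `Tree F q L s`: the line `L` has a tree-like derivation with `s` lines, with axioms which
follow from at most `q` clauses of `F` and the same inferences. -/
inductive Tree {n : ℕ} (F : CNF n) (q : ℕ) : Line n → ℕ → Prop
  | ax (L : Line n) : Axm F q L → Tree F q L 1
  | weak (L L' : Line n) (s : ℕ) : Tree F q L' s → (∀ x, Fails L x → Fails L' x) →
      Tree F q L (s + 1)
  | res (L L₁ L₂ : Line n) (s₁ s₂ : ℕ) : Tree F q L₁ s₁ → Tree F q L₂ s₂ →
      (∀ x, Fails L x → Fails L₁ x ∨ Fails L₂ x) → Tree F q L (s₁ + s₂ + 1)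

/-- The final statement. -/
def Main : Prop :=
  ∀ ε : ℝ, 0 < ε → ∃ C : ℕ, ∀ n : ℕ, C ≤ n → ∃ F : CNF n,
    F.card ≤ n ^ C ∧ (∀ c ∈ F, c.card ≤ C * Nat.log 2 n) ∧ (∀ x, ∃ c ∈ F, Falsified c x) ∧
    ∀ q : ℕ, C * Nat.log 2 n * q ≤ n →
      (∀ s : ℕ, Tree F q ∅ s → (2 : ℝ) ^ ((1 - ε) * n) ≤ s) ∧
      ∀ (S r : ℕ) (L : ℕ → Line n) (h : ℕ → ℕ), Refutes F q S r L h →
        (∃ i, i < S ∧ (Nat.card {x // Fails (L i) x} : ℝ) ≤ (2 : ℝ) ^ (ε * n)) ∧
        (∀ ρ : ℝ, 0 ≤ ρ → (h r : ℝ) ≤ (1 + ρ) * n → (2 : ℝ) ^ ((1 - ρ - ε) * n) ≤ S) ∧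
        ∀ K : ℝ, 1 ≤ K → (h r : ℝ) ≤ K * n → (2 : ℝ) ^ ((1 / (2 * K - 1) - ε) * n) ≤ S

end Pool.Agent.H97.PR
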