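import Pool.Agent.H97.PR.Defs

/-!
Resolution over parities at the scale of SETH (MP_c62aed_lc): targets.
-/

set_option autoImplicit false

namespace Pool.Agent.H97.PR

open Finset

/-! ### Rank -/

/-- (RKB) rank and dimension. -/
def T_RKB : Prop :=
  ∀ (n N : ℕ) (blk : Fin n → Fin N) (V V' : Submodule (ZMod 2) (E n)) (J J' : Finset (Fin N)),
    rk blk V J + dm (V ⊓ zr blk J) = dm V ∧ rk blk V ∅ = 0 ∧
    (J ⊆ J' → rk blk V J ≤ rk blk V J') ∧ (V ≤ V' → rk blk V J ≤ rk blk V' J) ∧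
    (V' ≤ V → dm V' + 1 = dm V → rk blk V J ≤ rk blk V' J + 1) ∧
    rk blk (V ⊓ zr blk J') J + rk blk V J' = rk blk V (J' ∪ J) ∧
    (V ≤ V' → dm V ≤ dm V')

/-- (RKC) sizes. -/
def T_RKC : Prop :=
  ∀ (n N : ℕ) (blk : Fin n → Fin N) (V : Submodule (ZMod 2) (E n)) (J : Finset (Fin N)),
    (cnt (n := n) fun x => x ∈ V) = 2 ^ dm V ∧
    (∀ a : E n, (cnt (n := n) fun x => x ∈ pc a V) = 2 ^ dm V) ∧
    dm (⊤ : Submodule (ZMod 2) (E n)) = n ∧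
    (∀ B : ℕ, (∀ v, (univ.filter fun i => blk i = v).card ≤ B) → V ≤ zr blk J →
      dm V + B * J.card ≤ B * N) ∧
    ∀ b : ℕ, (∀ v, b ≤ (univ.filter fun i => blk i = v).card) → b * J.card ≤ rk blk ⊤ J

/-- (CLS) the closure of a hyperplane `V'` of `V`. -/
def T_CLS : Prop :=
  ∀ (n N : ℕ) (blk : Fin n → Fin N) (γ : ℕ) (V V' : Submodule (ZMod 2) (E n))
    (Cl : Finset (Fin N)), V ≤ zr blk Cl →
    (∀ J : Finset (Fin N), Disjoint J Cl → γ * J.card ≤ rk blk V J) →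
    V' ≤ V → dm V' + 1 = dm V →
    (∀ J : Finset (Fin N), Disjoint J Cl → γ * J.card ≤ rk blk V' J) ∨
    ∃ J₁ : Finset (Fin N), J₁.Nonempty ∧ Disjoint J₁ Cl ∧
      V' ⊓ zr blk J₁ ≤ zr blk (Cl ∪ J₁) ∧
      (∀ J : Finset (Fin N), Disjoint J (Cl ∪ J₁) → γ * J.card ≤ rk blk (V' ⊓ zr blk J₁) J) ∧
      dm (V' ⊓ zr blk J₁) + γ * J₁.card = dm V ∧
      ∀ J' : Finset (Fin N), J' ⊆ J₁ → γ * J'.card ≤ rk blk V' J' + 1

/-- (SPL) a coset covered by two affine sets. -/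
def T_SPL : Prop :=
  ∀ (n : ℕ) (a : E n) (V : Submodule (ZMod 2) (E n)) (P Q : Set (E n)), IsAf P → IsAf Q →
    pc a V ⊆ P ∪ Q → pc a V ⊆ P ∨ pc a V ⊆ Q ∨
    ∃ (V' : Submodule (ZMod 2) (E n)) (a₁ a₂ : E n), V' ≤ V ∧ dm V' + 1 = dm V ∧
      a₁ ∈ pc a V ∧ a₂ ∈ pc a V ∧ pc a₁ V' ⊆ P ∧ pc a₂ V' ⊆ Q ∧ Disjoint (pc a₁ V') (pc a₂ V')

/-- (CST) counting in the cosets. -/
def T_CST : Prop :=
  ∀ (n : ℕ) (V : Submodule (ZMod 2) (E n)) (R : Set (E n)) (M : ℕ) (p : E n → Prop),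
    (∀ x ∈ R, pc x V ⊆ R) → (∀ x ∈ R, 2 ^ dm V ≤ M * cnt fun y => y ∈ pc x V ∧ p y) →
    cnt (fun x => x ∈ R) ≤ M * cnt fun y => y ∈ R ∧ p y

/-! ### The gadgets -/

open Classical in
/-- (JAN) Janson's inequality for a uniformly random subset `T` of `Ω`: the number of the sets
`A x` which are disjoint from `T`. -/
def T_JAN : Prop :=
  ∀ (Ω X : Type) [Fintype Ω] [Fintype X] (A : X → Finset Ω) (μ Δ : ℝ), 0 < Δ →
    μ = ∑ x, (1 / 2 : ℝ) ^ (A x).card →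
    (∑ x, ∑ y, if Disjoint (A x) (A y) then 0 else (1 / 2 : ℝ) ^ (A x ∪ A y).card) ≤ Δ →
    ((univ.filter fun T : Finset Ω =>
      (2 : ℝ) * (univ.filter fun x => Disjoint (A x) T).card ≤ μ).card : ℝ) ≤
      2 ^ Fintype.card Ω * Real.exp (-(μ ^ 2 / (8 * Δ)))

open Classical in
/-- (GMM) the pairs of points which agree on a block. -/
def T_GMM : Prop :=
  ∀ (n N : ℕ) (blk : Fin n → Fin N) (γ : ℕ) (V : Submodule (ZMod 2) (E n))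
    (J : Finset (Fin N)), J.card ≤ 2 ^ γ →
    (∀ J' : Finset (Fin N), J' ⊆ J → J'.Nonempty → γ * J'.card ≤ rk blk V J' + 1) →
    ∑ w ∈ univ.filter (fun w : E n => w ∈ V ∧ ∃ v ∈ J, w ∈ zr blk {v}),
      (2 : ℝ) ^ (J.filter fun v => w ∈ zr blk {v}).card ≤
      8 * 2 ^ dm V * (J.card : ℝ) / 2 ^ γ

open Classical in
/-- (GDA) the tables which fail for given `V`, `a`, `J`, `z`. -/
def T_GDA : Prop :=
  ∀ (n N : ℕ) (blk : Fin n → Fin N) (γ : ℕ) (V : Submodule (ZMod 2) (E n)) (a : E n)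
    (J : Finset (Fin N)) (z : Fin N → Bool), J.Nonempty → J.card ≤ 2 ^ γ →
    (∀ J' : Finset (Fin N), J' ⊆ J → J'.Nonempty → γ * J'.card ≤ rk blk V J' + 1) →
    ((univ.filter fun g : Gad blk => ¬ 2 ^ dm V ≤
      2 ^ (J.card + 1) * cnt fun x => x - a ∈ V ∧ ∀ v ∈ J, gv g x v = z v).card : ℝ) ≤
      Fintype.card (Gad blk) * Real.exp (-(2 ^ γ / (64 * (J.card : ℝ))))

/-- (GEX) good gadgets exist. -/
def T_GEX : Prop :=
  ∀ (n N : ℕ) (blk : Fin n → Fin N) (γ : ℕ), 2 ≤ n → N ≤ n → 128 * n ^ 3 ≤ 2 ^ γ →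
    ∃ g : Gad blk, Gd blk γ g

/-! ### The adversary -/

/-- (ADS) several variables are asked. -/
def T_ADS : Prop :=
  ∀ (N k m : ℕ) (F : RK.Fml N k m) (D : ℕ) (G : Finset (Fin N) → (Fin N → Bool) → Prop),
    Adv F D G → ∀ (A T : Finset (Fin N)) (y : Fin N → Bool), (A ∪ T).card ≤ D → G A y →
    ∃ y' : Fin N → Bool, (∀ u ∈ A, y' u = y u) ∧ G (A ∪ T) y'

/-- (LEF) leaves have small potential. -/
def T_LEF : Prop :=
  ∀ (n N k m : ℕ) (blk : Fin n → Fin N) (γ B D q σ : ℕ) (g : Gad blk) (F : RK.Fml N k m)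
    (G : Finset (Fin N) → (Fin N → Bool) → Prop), Env blk γ B D q σ g F G →
    ∀ (a : E n) (V : Submodule (ZMod 2) (E n)) (Cl : Finset (Fin N)) (A : Set (E n)),
    Sta blk γ g G a V Cl → pc a V ⊆ A → Lf F g σ A →
    dm V + γ * Cl.card ≤ γ * N + B * q

/-- (STP) one inference with two premises. -/
def T_STP : Prop :=
  ∀ (n N k m : ℕ) (blk : Fin n → Fin N) (γ B D q σ : ℕ) (g : Gad blk) (F : RK.Fml N k m)
    (G : Finset (Fin N) → (Fin N → Bool) → Prop), Env blk γ B D q σ g F G →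
    ∀ (a : E n) (V : Submodule (ZMod 2) (E n)) (Cl : Finset (Fin N)) (P Q : Set (E n)),
    IsAf P → IsAf Q → Sta blk γ g G a V Cl → pc a V ⊆ P ∪ Q →
    γ * N + B * q < dm V + γ * Cl.card →
    pc a V ⊆ P ∨ pc a V ⊆ Q ∨
    ∃ (V₁ : Submodule (ZMod 2) (E n)) (Cl₁ : Finset (Fin N)) (R₁ R₂ : Set (E n)),
      Cl ⊆ Cl₁ ∧ dm V + γ * Cl.card ≤ dm V₁ + γ * Cl₁.card + 1 ∧
      R₁ ⊆ P ∧ R₁ ⊆ pc a V ∧ R₂ ⊆ Q ∧ R₂ ⊆ pc a V ∧ Disjoint R₁ R₂ ∧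
      R₁.Nonempty ∧ R₂.Nonempty ∧
      (∀ x ∈ R₁, Sta blk γ g G x V₁ Cl₁ ∧ pc x V₁ ⊆ R₁) ∧
      (∀ x ∈ R₂, Sta blk γ g G x V₁ Cl₁ ∧ pc x V₁ ⊆ R₂) ∧
      2 ^ dm V ≤ 2 * 4 ^ (Cl₁.card - Cl.card) * cnt (fun x => x ∈ R₁) ∧
      2 ^ dm V ≤ 2 * 4 ^ (Cl₁.card - Cl.card) * cnt (fun x => x ∈ R₂)

/-- (MNM) the best state in an affine set. -/
def T_MNM : Prop :=
  ∀ (n N k m : ℕ) (blk : Fin n → Fin N) (γ : ℕ) (g : Gad blk) (F : RK.Fml N k m) (D : ℕ)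
    (G : Finset (Fin N) → (Fin N → Bool) → Prop), Adv F D G →
    ∀ (a : E n) (V : Submodule (ZMod 2) (E n)) (Cl : Finset (Fin N)) (A : Set (E n)),
    IsAf A → Sta blk γ g G a V Cl → pc a V ⊆ A →
    ∃ (V₁ : Submodule (ZMod 2) (E n)) (Cl₁ : Finset (Fin N)), Sta blk γ g G a V₁ Cl₁ ∧
      pc a V₁ ⊆ A ∧ cnt (fun x => x ∈ A) ≤ 2 ^ (dm V₁ + γ * Cl₁.card)

/-- (DPT) the potential bounds the depth. -/
def T_DPT : Prop :=
  ∀ (n N k m : ℕ) (blk : Fin n → Fin N) (γ B D q σ : ℕ) (g : Gad blk) (F : RK.Fml N k m)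
    (G : Finset (Fin N) → (Fin N → Bool) → Prop), Env blk γ B D q σ g F G →
    ∀ (S : ℕ) (A : ℕ → Set (E n)) (h : ℕ → ℕ), Dag (Lf F g σ) S A h →
    ∀ (i : ℕ) (a : E n) (V : Submodule (ZMod 2) (E n)) (Cl : Finset (Fin N)), i < S →
    Sta blk γ g G a V Cl → pc a V ⊆ A i →
    dm V + γ * Cl.card ≤ γ * N + B * q + h i

/-- (CVR) if the states of small potential which can be reached are at small nodes, then small
nodes cover many points. -/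
def T_CVR : Prop :=
  ∀ (n N k m : ℕ) (blk : Fin n → Fin N) (γ B D q σ : ℕ) (g : Gad blk) (F : RK.Fml N k m)
    (G : Finset (Fin N) → (Fin N → Bool) → Prop), Env blk γ B D q σ g F G →
    ∀ (S : ℕ) (A : ℕ → Set (E n)) (h : ℕ → ℕ), Dag (Lf F g σ) S A h → ∀ s δ₀ h₀ : ℕ,
    (∀ (i : ℕ) (a : E n) (V : Submodule (ZMod 2) (E n)) (Cl : Finset (Fin N)), i < S →
      Sta blk γ g G a V Cl → pc a V ⊆ A i → dm V + γ * Cl.card ≤ γ * N + B * q →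
      h i + δ₀ ≤ h₀ + (dm V + γ * Cl.card) → cnt (fun x => x ∈ A i) ≤ 2 ^ s) →
    ∀ (i : ℕ) (a : E n) (V : Submodule (ZMod 2) (E n)) (Cl : Finset (Fin N)), i < S →
    Sta blk γ g G a V Cl → pc a V ⊆ A i → h i + δ₀ ≤ h₀ + (dm V + γ * Cl.card) →
    2 ^ dm V ≤ 4 ^ (N - Cl.card) *
      cnt fun x => x ∈ pc a V ∧ ∃ u, u < S ∧ cnt (fun y => y ∈ A u) ≤ 2 ^ s ∧ x ∈ A u

/-- (RND) one round. -/
def T_RND : Prop :=
  ∀ (n N k m : ℕ) (blk : Fin n → Fin N) (γ B D q σ : ℕ) (g : Gad blk) (F : RK.Fml N k m)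
    (G : Finset (Fin N) → (Fin N → Bool) → Prop), Env blk γ B D q σ g F G →
    ∀ (S : ℕ) (A : ℕ → Set (E n)) (h : ℕ → ℕ), Dag (Lf F g σ) S A h →
    ∀ (s i : ℕ) (a : E n) (V : Submodule (ZMod 2) (E n)) (Cl : Finset (Fin N)), i < S →
    Sta blk γ g G a V Cl → pc a V ⊆ A i → S * 2 ^ s * 4 ^ N < 2 ^ dm V →
    ∃ (i' : ℕ) (a' : E n) (V' : Submodule (ZMod 2) (E n)) (Cl' : Finset (Fin N)), i' < S ∧
      Sta blk γ g G a' V' Cl' ∧ pc a' V' ⊆ A i' ∧ s < dm V' + γ * N ∧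
      h i' + dm V ≤ h i + (γ * N + B * q)

/-- (ITR) all rounds. -/
def T_ITR : Prop :=
  ∀ (n N k m : ℕ) (blk : Fin n → Fin N) (γ B D q σ : ℕ) (g : Gad blk) (F : RK.Fml N k m)
    (G : Finset (Fin N) → (Fin N → Bool) → Prop), Env blk γ B D q σ g F G →
    ∀ (S : ℕ) (A : ℕ → Set (E n)) (h : ℕ → ℕ), Dag (Lf F g σ) S A h →
    ∀ L : ℕ, S * 4 ^ N < 2 ^ L → ∀ R : ℕ,
    ∀ (i : ℕ) (a : E n) (V : Submodule (ZMod 2) (E n)) (Cl : Finset (Fin N)), i < S →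
    Sta blk γ g G a V Cl → pc a V ⊆ A i → R * (L + γ * N) ≤ dm V →
    2 * (R + 1) * dm V ≤
      2 * h i + 2 * (R + 1) * (γ * N + B * q) + R * (R + 1) * (L + γ * N)

/-- (TRE) tree-like refutations. -/
def T_TRE : Prop :=
  ∀ (n N k m : ℕ) (blk : Fin n → Fin N) (γ B D q σ : ℕ) (g : Gad blk) (F : RK.Fml N k m)
    (G : Finset (Fin N) → (Fin N → Bool) → Prop), Env blk γ B D q σ g F G →
    ∀ (A : Set (E n)) (s : ℕ), TreeA (Lf F g σ) A s →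
    ∀ (a : E n) (V : Submodule (ZMod 2) (E n)) (Cl : Finset (Fin N)),
    Sta blk γ g G a V Cl → pc a V ⊆ A → 2 ^ (dm V + γ * Cl.card) ≤ s * 2 ^ (γ * N + B * q)

/-! ### The formula -/

/-- (ADV) the adversary of `RK`. -/
def T_ADV : Prop :=
  ∀ (N k m : ℕ) (F : RK.Fml N k m) (j t d e s₀ : ℕ), RK.Par F j t d e s₀ → e + d ≤ N →
    ∃ G : Finset (Fin N) → (Fin N → Bool) → Prop, Adv F (N - (e + d)) G

/-- (FEX) unsatisfiable formulas with an adversary. -/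
def T_FEX : Prop :=
  ∀ ε : ℝ, 0 < ε → ε ≤ 1 → ∃ k c N₀ : ℕ, ∀ N : ℕ, N₀ ≤ N → ∃ m : ℕ, m ≤ c * N ∧
    ∃ (F : RK.Fml N k m) (D : ℕ) (G : Finset (Fin N) → (Fin N → Bool) → Prop),
      (∀ z, ∃ c, RK.Falsified (RK.cls F c) z) ∧ Adv F D G ∧ D ≤ N ∧ (N : ℝ) ≤ D + ε * N

/-- (BLK) blocks. -/
def T_BLK : Prop :=
  ∀ n b : ℕ, 1 ≤ b → b ≤ n → ∃ blk : Fin n → Fin (n / b),
    ∀ v, b ≤ (univ.filter fun i => blk i = v).card ∧
      (univ.filter fun i => blk i = v).card ≤ 2 * b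

/-- (CMA) the size of the composed formula. -/
def T_CMA : Prop :=
  ∀ (n N k m : ℕ) (blk : Fin n → Fin N) (g : Gad blk) (F : RK.Fml N k m) (B : ℕ),
    (∀ v, (univ.filter fun i => blk i = v).card ≤ B) →
    (∀ C ∈ cmp F g, C.card ≤ B * k) ∧ (cmp F g).card ≤ m * 2 ^ (B * k)

/-- (CMB) the meaning of the clauses of the composed formula. -/
def T_CMB : Prop :=
  ∀ (n N k m : ℕ) (blk : Fin n → Fin N) (g : Gad blk) (F : RK.Fml N k m),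
    (∀ C ∈ cmp F g, ∃ c : Fin m, ∀ x, Falsified C x →
      RK.Falsified (RK.cls F c) (gv g (tz x))) ∧
    ((∀ z, ∃ c, RK.Falsified (RK.cls F c) z) → ∀ x, ∃ C ∈ cmp F g, Falsified C x)

/-- (TRL) from lines to sets of points. -/
def T_TRL : Prop :=
  ∀ (n N k m : ℕ) (blk : Fin n → Fin N) (g : Gad blk) (F : RK.Fml N k m) (σ : ℕ),
    (∀ L : Line n, IsAf (fs L)) ∧ fs (∅ : Line n) = Set.univ ∧
    (∀ L : Line n, Axm (cmp F g) σ L → Lf F g σ (fs L)) ∧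
    (∀ (S r : ℕ) (L : ℕ → Line n) (h : ℕ → ℕ), Refutes (cmp F g) σ S r L h →
      Dag (Lf F g σ) S (fun i => fs (L i)) h) ∧
    ∀ (L : Line n) (s : ℕ), Tree (cmp F g) σ L s → TreeA (Lf F g σ) (fs L) s

end Pool.Agent.H97.PR
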